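import Pool.Agent.Q267.E8.Stm2

/-!
# Project E8, part 2, job K2: `∑ C(m,k)² (1-z)^k = (-1)^m ∑ (-1)^k C(m,k) C(m+k,k) z^(m-k)` (helper121)
-/

set_option autoImplicit false

namespace Pool.Agent.Q121.E8

open Finset Pool.Agent.Q267.CDE Pool.Agent.Q267.MW Pool.Agent.Q267.E8

/-- Vandermonde -/
theorem k2_aux (m n : ℕ) (hn : n ≤ m) :
    ∑ k ∈ range (m + 1), m.choose k ^ 2 * k.choose n = m.choose n * (m + (m - n)).choose (m - n) := by
  obtain ⟨d, rfl⟩ := Nat.exists_eq_add_of_le hn
  have hd : n + d - n = d := by omega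
  rw [hd, show n + d + 1 = n + (d + 1) by ring, Finset.sum_range_add, Finset.sum_eq_zero (s := range n), zero_add]
  · rw [Nat.add_choose_eq (n + d) d d, Finset.Nat.sum_antidiagonal_eq_sum_range_succ_mk, Finset.mul_sum,
      ← Finset.sum_flip (n := d)]
    apply Finset.sum_congr rfl
    intro j hj
    have hj' : j ≤ d := by
      have := Finset.mem_range.1 hj
      omega
    have h1 : (n + d).choose (n + (d - j)) * (n + (d - j)).choose n = (n + d).choose n * d.choose (d - j) := by
      rw [Nat.choose_mul (by omega)]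
      congr 2 <;> omega
    have h2 : (n + d).choose j = (n + d).choose (n + (d - j)) :=
      Nat.choose_symm_of_eq_add (by omega)
    show (n + d).choose (n + (d - j)) ^ 2 * (n + (d - j)).choose n =
      (n + d).choose n * ((n + d).choose j * d.choose (d - j))
    rw [h2, pow_two, mul_assoc, h1]
    ring
  · intro k hk
    rw [Nat.choose_eq_zero_of_lt (Finset.mem_range.1 hk), mul_zero]

theorem k2 : S_K2 := by
  intro S _ m z
  have h1 : ∀ k ∈ range (m + 1), ((m.choose k : ℕ) : S) ^ 2 * (1 - z) ^ k =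
      ∑ n ∈ range (m + 1), (((m.choose k ^ 2 * k.choose n : ℕ)) : S) * (-z) ^ n := by
    intro k hk
    have hk' : k + 1 ≤ m + 1 := Finset.mem_range.1 hk
    have h2 : (1 - z) ^ k = ∑ n ∈ range (k + 1), ((k.choose n : ℕ) : S) * (-z) ^ n := by
      rw [show 1 - z = -z + 1 by ring, add_pow]
      apply Finset.sum_congr rfl
      intro n _
      rw [one_pow]
      ring
    rw [h2, Finset.mul_sum, ← Finset.sum_subset (Finset.range_subset_range.2 hk')]
    · apply Finset.sum_congr rfl
      intro n _
      push_cast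
      ring
    · intro n _ hn
      have : k < n := by
        by_contra h
        exact hn (Finset.mem_range.2 (by omega))
      rw [Nat.choose_eq_zero_of_lt this, mul_zero, Nat.cast_zero, zero_mul]
  unfold Kf Kr
  rw [Finset.sum_congr rfl h1, Finset.sum_comm, Finset.mul_sum, ← Finset.sum_flip (n := m)]
  apply Finset.sum_congr rfl
  intro k hk
  have hk' : k ≤ m := by
    have := Finset.mem_range.1 hk
    omega
  rw [← Finset.sum_mul, ← Nat.cast_sum, k2_aux m (m - k) (Nat.sub_le _ _)]
  have h3 : m - (m - k) = k := by omega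
  have h4 : m.choose (m - k) = m.choose k := Nat.choose_symm hk'
  have h5 : (-1 : S) ^ m * (-1) ^ k = (-1) ^ (m - k) := by
    obtain ⟨d, rfl⟩ := Nat.exists_eq_add_of_le hk'
    have : k + d - k = d := by omega
    rw [this, pow_add]
    have h6 : (-1 : S) ^ k * (-1) ^ k = 1 := by
      rw [← mul_pow]
      simp
    calc (-1 : S) ^ k * (-1) ^ d * (-1) ^ k = ((-1 : S) ^ k * (-1) ^ k) * (-1) ^ d := by ring
      _ = (-1) ^ d := by rw [h6, one_mul]
  rw [h3, h4, neg_pow z]
  push_cast
  rw [← h5]
  ring

end Pool.Agent.Q121.E8
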