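import Pool.Agent.Q267.E8.Stm

/-!
# Project E8, job RP: primes `1, 3` modulo `8` are `x² + 2 y²` (helper121)
-/

set_option autoImplicit false

namespace Pool.Agent.Q121.E8

open Finset Pool.Agent.Q267.CDE Pool.Agent.Q267.MW Pool.Agent.Q267.E8

theorem thue (p : ℕ) [Fact p.Prime] (r : ZMod p) (hr : r * r = -2) :
    ∃ x y : ℤ, (p : ℤ) = x ^ 2 + 2 * y ^ 2 := by
  have hp := Fact.out (p := p.Prime)
  obtain ⟨n, hn⟩ : ∃ n : ℕ, n = Nat.sqrt p := ⟨_, rfl⟩
  have h1 : p < (n + 1) * (n + 1) := by rw [hn]; exact Nat.lt_succ_sqrt p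
  have h2 : n * n < p := by
    have h3 : n * n ≤ p := by rw [hn]; exact Nat.sqrt_le p
    refine lt_of_le_of_ne h3 fun h4 => ?_
    rw [← h4] at hp
    have h6 : n ≠ 1 := by
      rintro rfl
      exact Nat.not_prime_one hp
    exact Nat.not_prime_mul h6 h6 hp
  obtain ⟨s, hs, t, ht, hst, he⟩ := Finset.exists_ne_map_eq_of_card_lt_of_maps_to
    (s := range (n + 1) ×ˢ range (n + 1)) (t := (univ : Finset (ZMod p)))
    (f := fun s => (s.1 : ZMod p) - r * (s.2 : ZMod p))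
    (by rw [card_product, card_range, card_univ, ZMod.card]; exact h1) (fun _ _ => mem_univ _)
  rw [mem_product, mem_range, mem_range] at hs ht
  obtain ⟨x, hx⟩ : ∃ x : ℤ, x = (s.1 : ℤ) - t.1 := ⟨_, rfl⟩
  obtain ⟨y, hy⟩ : ∃ y : ℤ, y = (s.2 : ℤ) - t.2 := ⟨_, rfl⟩
  have hx1 : -(n : ℤ) ≤ x ∧ x ≤ n := by omega
  have hy1 : -(n : ℤ) ≤ y ∧ y ≤ n := by omega
  have hxy : (x : ZMod p) = r * (y : ZMod p) := by
    have he' : (s.1 : ZMod p) - r * (s.2 : ZMod p) = (t.1 : ZMod p) - r * (t.2 : ZMod p) := he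
    rw [hx, hy]
    push_cast
    linear_combination he'
  have hdvd : (p : ℤ) ∣ x ^ 2 + 2 * y ^ 2 := by
    rw [← ZMod.intCast_zmod_eq_zero_iff_dvd]
    push_cast
    rw [hxy]
    linear_combination (y : ZMod p) ^ 2 * hr
  have hne : ¬ (x = 0 ∧ y = 0) := by
    rintro ⟨h3, h4⟩
    apply hst
    ext
    · omega
    · omega
  have hpos : 0 < x ^ 2 + 2 * y ^ 2 := by
    by_contra hcon
    have h3 : x ^ 2 = 0 := by nlinarith [sq_nonneg x, sq_nonneg y]
    have h4 : y ^ 2 = 0 := by nlinarith [sq_nonneg x, sq_nonneg y]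
    exact hne ⟨pow_eq_zero_iff (two_ne_zero) |>.1 h3, pow_eq_zero_iff (two_ne_zero) |>.1 h4⟩
  have hlt : x ^ 2 + 2 * y ^ 2 < 3 * p := by
    have h3 : x ^ 2 ≤ (n : ℤ) * n := by nlinarith [hx1.1, hx1.2]
    have h4 : y ^ 2 ≤ (n : ℤ) * n := by nlinarith [hy1.1, hy1.2]
    have h5 : (n : ℤ) * n < p := by exact_mod_cast h2
    linarith
  obtain ⟨c, hc⟩ := hdvd
  have hp0 : (0 : ℤ) < p := by exact_mod_cast hp.pos
  have hc1 : 0 < c := by
    by_contra hcon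
    have : (p : ℤ) * c ≤ 0 := mul_nonpos_of_nonneg_of_nonpos hp0.le (by omega)
    omega
  have hc2 : c < 3 := by
    by_contra hcon
    have : (p : ℤ) * 3 ≤ p * c := mul_le_mul_of_nonneg_left (by omega) hp0.le
    omega
  have hc3 : c = 1 ∨ c = 2 := by omega
  rcases hc3 with rfl | rfl
  · exact ⟨x, y, by rw [hc]; ring⟩
  · have hev : (2 : ℤ) ∣ x := by
      have h3 : (2 : ℤ) ∣ x ^ 2 := ⟨p - y ^ 2, by linarith⟩
      exact Int.Prime.dvd_pow' Nat.prime_two h3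
    obtain ⟨z, hz⟩ := hev
    refine ⟨y, z, ?_⟩
    rw [hz] at hc
    nlinarith

theorem rp : S_RP := by
  intro p _ h8
  have hp := Fact.out (p := p.Prime)
  have hp2 : p ≠ 2 := by
    rintro rfl
    omega
  obtain ⟨r, hr⟩ := (ZMod.exists_sq_eq_neg_two_iff hp2).2 h8
  obtain ⟨x, y, hxy⟩ := thue p r hr.symm
  have hodd : (p : ℤ) % 2 = 1 := by omega
  have hx : x % 2 = 1 := by
    rcases Int.emod_two_eq_zero_or_one x with h | h
    · exfalso
      obtain ⟨z, hz⟩ := Int.dvd_of_emod_eq_zero h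
      rw [hz] at hxy
      have : (p : ℤ) = 2 * (2 * z ^ 2 + y ^ 2) := by rw [hxy]; ring
      omega
    · exact h
  have h4 : x % 4 = 1 ∨ x % 4 = 3 := by omega
  rcases h4 with h | h
  · exact ⟨x, y, hxy, by omega⟩
  · exact ⟨-x, y, by rw [hxy]; ring, by omega⟩

end Pool.Agent.Q121.E8
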